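import Mathlib
import Pool.Agent.U251.LD.Stm
import Pool.Agent.U97.LB.BLK

/-! Project LD (helper251), package BLK: bounds of the blocks (port of package BLK of project LB). -/

set_option autoImplicit false

namespace Pool.Agent.U739.LD.BLK

open Real Finset Pool.Agent.U251.LD
open Pool.Agent.U581.LB (blk rt sf)
open Pool.Agent.U97.LB (min_one min_two mem_blk pow_blk Z Z_sum Z_nonneg sum_le_Z blk_le_Z)

theorem cd_nonneg (n : ℕ) : 0 ≤ cd n := by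
  unfold cd dv
  positivity

theorem cd_le : ∃ A : ℝ, 0 < A ∧ ∀ n : ℕ, 1 ≤ n → cd n ≤ A * (n : ℝ) ^ (-(37 / 50) : ℝ) := by
  obtain ⟨C, hC, h⟩ := Pool.Agent.Helper112.divisor_bound (1 / 100) (by norm_num)
  refine ⟨C / (π * √2), by positivity, fun n hn => ?_⟩
  have h2 : dv n ≤ C * (n : ℝ) ^ (1 / 100 : ℝ) := h n hn
  have hn0 : (0 : ℝ) < n := by exact_mod_cast hn
  have e : (n : ℝ) ^ (-(37 / 50) : ℝ) = (n : ℝ) ^ (1 / 100 : ℝ) * (n : ℝ) ^ (-(3 / 4) : ℝ) := by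
    rw [← Real.rpow_add hn0]
    norm_num
  unfold cd
  calc dv n / (π * √2) * (n : ℝ) ^ (-(3 / 4) : ℝ)
      ≤ (C * (n : ℝ) ^ (1 / 100 : ℝ)) / (π * √2) * (n : ℝ) ^ (-(3 / 4) : ℝ) := by gcongr
    _ = C / (π * √2) * (n : ℝ) ^ (-(37 / 50) : ℝ) := by
        rw [e]
        ring

theorem Bh_nonneg (N q : ℕ) {h : ℝ} (hh : 0 < h) : 0 ≤ Bh N q h := by
  unfold Bh
  refine sum_nonneg fun n _ => mul_nonneg (cd_nonneg n) (le_min (by norm_num) (by positivity))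

theorem Vh_nonneg (N q : ℕ) {h : ℝ} (hh : 0 < h) : 0 ≤ Vh N q h := by
  unfold Vh
  refine sum_nonneg fun n _ => mul_nonneg (by positivity) (le_min (by norm_num) (by positivity))

theorem Bh_le {A : ℝ} (hA0 : 0 < A)
    (hA : ∀ n : ℕ, 1 ≤ n → cd n ≤ A * (n : ℝ) ^ (-(37 / 50) : ℝ)) (N q : ℕ) {h : ℝ} (hh : 0 < h) :
    Bh N q h ≤ 2 * π * A * Z * (q : ℝ) ^ (-(101 / 200) : ℝ) * h ^ (47 / 100 : ℝ) := by
  have hterm : ∀ n ∈ blk N q, cd n * min 2 (2 * π * (√n * h)) ≤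
      2 * π * A * (q : ℝ) ^ (-(101 / 200) : ℝ) * h ^ (47 / 100 : ℝ) *
        (rt n : ℝ) ^ (-(101 / 100) : ℝ) := by
    intro n hn
    have h1 := (mem_blk hn).1
    have hn0 : (0 : ℝ) < n := by exact_mod_cast h1
    have hx : 0 < √(n : ℝ) * h := mul_pos (Real.sqrt_pos.2 hn0) hh
    have h2 := min_one (s := 47 / 100) hx (by norm_num) (by norm_num)
    have h3 : (√(n : ℝ) * h) ^ (47 / 100 : ℝ) = (n : ℝ) ^ (47 / 200 : ℝ) * h ^ (47 / 100 : ℝ) := by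
      rw [Real.mul_rpow (Real.sqrt_nonneg _) hh.le, Real.sqrt_eq_rpow, ← Real.rpow_mul hn0.le]
      norm_num
    have h4 : (n : ℝ) ^ (-(37 / 50) : ℝ) * (n : ℝ) ^ (47 / 200 : ℝ) =
        (n : ℝ) ^ (-(101 / 200) : ℝ) := by
      rw [← Real.rpow_add hn0]
      norm_num
    calc cd n * min 2 (2 * π * (√n * h))
        ≤ (A * (n : ℝ) ^ (-(37 / 50) : ℝ)) * (2 * π * (√(n : ℝ) * h) ^ (47 / 100 : ℝ)) :=
          mul_le_mul (hA n h1) h2 (le_min (by norm_num) (by positivity)) (by positivity)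
      _ = 2 * π * A * ((n : ℝ) ^ (-(37 / 50) : ℝ) * (n : ℝ) ^ (47 / 200 : ℝ)) *
            h ^ (47 / 100 : ℝ) := by
          rw [h3]
          ring
      _ = _ := by
          rw [h4, pow_blk hn]
          ring
  unfold Bh
  refine (sum_le_sum hterm).trans ?_
  rw [← mul_sum]
  have h5 := blk_le_Z N q
  have h6 : 0 ≤ 2 * π * A * (q : ℝ) ^ (-(101 / 200) : ℝ) * h ^ (47 / 100 : ℝ) := by positivity
  calc 2 * π * A * (q : ℝ) ^ (-(101 / 200) : ℝ) * h ^ (47 / 100 : ℝ) *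
        ∑ n ∈ blk N q, (rt n : ℝ) ^ (-(101 / 100) : ℝ)
      ≤ 2 * π * A * (q : ℝ) ^ (-(101 / 200) : ℝ) * h ^ (47 / 100 : ℝ) * Z :=
        mul_le_mul_of_nonneg_left h5 h6
    _ = _ := by ring

theorem Vh_le {A : ℝ} (hA0 : 0 < A)
    (hA : ∀ n : ℕ, 1 ≤ n → cd n ≤ A * (n : ℝ) ^ (-(37 / 50) : ℝ)) (N q : ℕ) {h : ℝ} (hh : 0 < h) :
    Vh N q h ≤ 2 * π ^ 2 * A ^ 2 * Z * (q : ℝ) ^ (-(101 / 200) : ℝ) * h ^ (39 / 20 : ℝ) := by
  have hterm : ∀ n ∈ blk N q, cd n ^ 2 * min 2 (2 * π ^ 2 * (n * h ^ 2)) ≤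
      2 * π ^ 2 * A ^ 2 * (q : ℝ) ^ (-(101 / 200) : ℝ) * h ^ (39 / 20 : ℝ) *
        (rt n : ℝ) ^ (-(101 / 100) : ℝ) := by
    intro n hn
    have h1 := (mem_blk hn).1
    have hn0 : (0 : ℝ) < n := by exact_mod_cast h1
    have hx : 0 < √(n : ℝ) * h := mul_pos (Real.sqrt_pos.2 hn0) hh
    have h2 := min_two (s := 39 / 20) hx (by norm_num) (by norm_num)
    have e : (√(n : ℝ) * h) ^ 2 = n * h ^ 2 := by
      rw [mul_pow, Real.sq_sqrt hn0.le]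
    rw [e] at h2
    have h3 : (√(n : ℝ) * h) ^ (39 / 20 : ℝ) = (n : ℝ) ^ (39 / 40 : ℝ) * h ^ (39 / 20 : ℝ) := by
      rw [Real.mul_rpow (Real.sqrt_nonneg _) hh.le, Real.sqrt_eq_rpow, ← Real.rpow_mul hn0.le]
      norm_num
    have h4 : ((n : ℝ) ^ (-(37 / 50) : ℝ)) ^ 2 * (n : ℝ) ^ (39 / 40 : ℝ) =
        (n : ℝ) ^ (-(101 / 200) : ℝ) := by
      rw [← Real.rpow_natCast, ← Real.rpow_mul hn0.le, ← Real.rpow_add hn0]
      norm_num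
    have h5 : cd n ^ 2 ≤ (A * (n : ℝ) ^ (-(37 / 50) : ℝ)) ^ 2 :=
      pow_le_pow_left₀ (cd_nonneg n) (hA n h1) 2
    calc cd n ^ 2 * min 2 (2 * π ^ 2 * (n * h ^ 2))
        ≤ (A * (n : ℝ) ^ (-(37 / 50) : ℝ)) ^ 2 * (2 * π ^ 2 * (√(n : ℝ) * h) ^ (39 / 20 : ℝ)) :=
          mul_le_mul h5 h2 (le_min (by norm_num) (by positivity)) (by positivity)
      _ = 2 * π ^ 2 * A ^ 2 * (((n : ℝ) ^ (-(37 / 50) : ℝ)) ^ 2 * (n : ℝ) ^ (39 / 40 : ℝ)) *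
            h ^ (39 / 20 : ℝ) := by
          rw [h3]
          ring
      _ = _ := by
          rw [h4, pow_blk hn]
          ring
  unfold Vh
  refine (sum_le_sum hterm).trans ?_
  rw [← mul_sum]
  have h5 := blk_le_Z N q
  have h6 : 0 ≤ 2 * π ^ 2 * A ^ 2 * (q : ℝ) ^ (-(101 / 200) : ℝ) * h ^ (39 / 20 : ℝ) := by
    positivity
  calc 2 * π ^ 2 * A ^ 2 * (q : ℝ) ^ (-(101 / 200) : ℝ) * h ^ (39 / 20 : ℝ) *
        ∑ n ∈ blk N q, (rt n : ℝ) ^ (-(101 / 100) : ℝ)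
      ≤ 2 * π ^ 2 * A ^ 2 * (q : ℝ) ^ (-(101 / 200) : ℝ) * h ^ (39 / 20 : ℝ) * Z :=
        mul_le_mul_of_nonneg_left h5 h6
    _ = _ := by ring

theorem t_BLK : S_BLK := by
  obtain ⟨A, hA0, hA⟩ := cd_le
  have hZ := Z_nonneg
  obtain ⟨B1, hB1⟩ : ∃ B1 : ℝ, B1 = 2 * π * A * Z := ⟨_, rfl⟩
  obtain ⟨B2, hB2⟩ : ∃ B2 : ℝ, B2 = 2 * π ^ 2 * A ^ 2 * Z := ⟨_, rfl⟩
  have hB10 : 0 ≤ B1 := by rw [hB1]; positivity
  have hB20 : 0 ≤ B2 := by rw [hB2]; positivity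
  refine ⟨B1 * B2 * Z + B1 ^ 2 * B2 * Z + 1, by positivity, ?_⟩
  intro N h hh hh1
  have hq : ∀ q ∈ Icc 1 N, 0 < (q : ℝ) ∧ 1 ≤ (q : ℝ) := by
    intro q hq
    rw [mem_Icc] at hq
    have : (1 : ℝ) ≤ q := by exact_mod_cast hq.1
    exact ⟨by linarith, this⟩
  constructor
  · have h1 : ∀ q ∈ Icc 1 N, Bh N q h * Vh N q h ≤
        B1 * B2 * h ^ (9 / 4 : ℝ) * (q : ℝ) ^ (-(101 / 100) : ℝ) := by
      intro q hq'
      obtain ⟨hq0, hq1⟩ := hq q hq'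
      have e1 : (q : ℝ) ^ (-(101 / 100) : ℝ) =
          (q : ℝ) ^ (-(101 / 200) : ℝ) * (q : ℝ) ^ (-(101 / 200) : ℝ) := by
        rw [← Real.rpow_add hq0]
        norm_num
      have e2 : h ^ (47 / 100 : ℝ) * h ^ (39 / 20 : ℝ) ≤ h ^ (9 / 4 : ℝ) := by
        rw [← Real.rpow_add hh]
        exact Real.rpow_le_rpow_of_exponent_ge hh hh1 (by norm_num)
      calc Bh N q h * Vh N q h
          ≤ (2 * π * A * Z * (q : ℝ) ^ (-(101 / 200) : ℝ) * h ^ (47 / 100 : ℝ)) *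
            (2 * π ^ 2 * A ^ 2 * Z * (q : ℝ) ^ (-(101 / 200) : ℝ) * h ^ (39 / 20 : ℝ)) :=
            mul_le_mul (Bh_le hA0 hA N q hh) (Vh_le hA0 hA N q hh) (Vh_nonneg N q hh)
              (by positivity)
        _ = B1 * B2 * (h ^ (47 / 100 : ℝ) * h ^ (39 / 20 : ℝ)) *
              (q : ℝ) ^ (-(101 / 100) : ℝ) := by
            rw [e1, hB1, hB2]
            ring
        _ ≤ B1 * B2 * h ^ (9 / 4 : ℝ) * (q : ℝ) ^ (-(101 / 100) : ℝ) := by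
            gcongr
    refine (sum_le_sum h1).trans ?_
    rw [← mul_sum]
    have h2 := sum_le_Z (Icc 1 N)
    have h3 : 0 ≤ h ^ (9 / 4 : ℝ) := Real.rpow_nonneg hh.le _
    calc B1 * B2 * h ^ (9 / 4 : ℝ) * ∑ q ∈ Icc 1 N, (q : ℝ) ^ (-(101 / 100) : ℝ)
        ≤ B1 * B2 * h ^ (9 / 4 : ℝ) * Z := mul_le_mul_of_nonneg_left h2 (by positivity)
      _ = B1 * B2 * Z * h ^ (9 / 4 : ℝ) := by ring
      _ ≤ (B1 * B2 * Z + B1 ^ 2 * B2 * Z + 1) * h ^ (9 / 4 : ℝ) := by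
          refine mul_le_mul_of_nonneg_right ?_ h3
          have : 0 ≤ B1 ^ 2 * B2 * Z := by positivity
          linarith
  · have h1 : ∀ q ∈ Icc 1 N, Bh N q h ^ 2 * Vh N q h ≤
        B1 ^ 2 * B2 * h ^ (5 / 2 : ℝ) * (q : ℝ) ^ (-(101 / 100) : ℝ) := by
      intro q hq'
      obtain ⟨hq0, hq1⟩ := hq q hq'
      have e1 : ((q : ℝ) ^ (-(101 / 200) : ℝ)) ^ 2 * (q : ℝ) ^ (-(101 / 200) : ℝ) ≤
          (q : ℝ) ^ (-(101 / 100) : ℝ) := by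
        rw [← Real.rpow_natCast, ← Real.rpow_mul hq0.le, ← Real.rpow_add hq0]
        exact Real.rpow_le_rpow_of_exponent_le hq1 (by norm_num)
      have e2 : (h ^ (47 / 100 : ℝ)) ^ 2 * h ^ (39 / 20 : ℝ) ≤ h ^ (5 / 2 : ℝ) := by
        rw [← Real.rpow_natCast, ← Real.rpow_mul hh.le, ← Real.rpow_add hh]
        exact Real.rpow_le_rpow_of_exponent_ge hh hh1 (by norm_num)
      calc Bh N q h ^ 2 * Vh N q h
          ≤ (2 * π * A * Z * (q : ℝ) ^ (-(101 / 200) : ℝ) * h ^ (47 / 100 : ℝ)) ^ 2 *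
            (2 * π ^ 2 * A ^ 2 * Z * (q : ℝ) ^ (-(101 / 200) : ℝ) * h ^ (39 / 20 : ℝ)) :=
            mul_le_mul (pow_le_pow_left₀ (Bh_nonneg N q hh) (Bh_le hA0 hA N q hh) 2)
              (Vh_le hA0 hA N q hh) (Vh_nonneg N q hh) (by positivity)
        _ = B1 ^ 2 * B2 * ((h ^ (47 / 100 : ℝ)) ^ 2 * h ^ (39 / 20 : ℝ)) *
              (((q : ℝ) ^ (-(101 / 200) : ℝ)) ^ 2 * (q : ℝ) ^ (-(101 / 200) : ℝ)) := by
            rw [hB1, hB2]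
            ring
        _ ≤ B1 ^ 2 * B2 * h ^ (5 / 2 : ℝ) * (q : ℝ) ^ (-(101 / 100) : ℝ) := by
            gcongr
    refine (sum_le_sum h1).trans ?_
    rw [← mul_sum]
    have h2 := sum_le_Z (Icc 1 N)
    have h3 : 0 ≤ h ^ (5 / 2 : ℝ) := Real.rpow_nonneg hh.le _
    calc B1 ^ 2 * B2 * h ^ (5 / 2 : ℝ) * ∑ q ∈ Icc 1 N, (q : ℝ) ^ (-(101 / 100) : ℝ)
        ≤ B1 ^ 2 * B2 * h ^ (5 / 2 : ℝ) * Z := mul_le_mul_of_nonneg_left h2 (by positivity)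
      _ = B1 ^ 2 * B2 * Z * h ^ (5 / 2 : ℝ) := by ring
      _ ≤ (B1 * B2 * Z + B1 ^ 2 * B2 * Z + 1) * h ^ (5 / 2 : ℝ) := by
          refine mul_le_mul_of_nonneg_right ?_ h3
          have : 0 ≤ B1 * B2 * Z := by positivity
          linarith

end Pool.Agent.U739.LD.BLK
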